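import Pool.Agent.helper45.BR.Spec
import Pool.Agent.helper57.V3.TMO
import Pool.Agent.helper91.V3.THU

/-!
# Project br (MP_af9036_an), module ESC: orbits do not converge to the boundary
-/

set_option autoImplicit false

open Complex Metric Set Filter Topology MeasureTheory MPS Pool.Agent.helper98.ILF
  Pool.Agent.helper16.Multibrot

noncomputable section

namespace BR

theorem ESC_cont (n : ℕ) (c : ℂ) : Continuous (fc n c) := by
  unfold fc
  fun_prop

theorem ESC_diff (n m : ℕ) (c : ℂ) : Differentiable ℂ ((fc n c)^[m]) := by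
  have h : Differentiable ℂ (fc n c) := by
    unfold fc
    fun_prop
  exact h.iterate m

/-- an orbit which leaves all compact subsets of `U` has no ultralimit in `U`. -/
theorem ESC_limit (g : ℂ → ℂ) (U : Set ℂ) (hUo : IsOpen U) (x : ℂ)
    (hx : ∀ C ⊆ U, IsCompact C → ∀ᶠ k in atTop, g^[k] x ∉ C) (F : Filter ℕ) [F.NeBot]
    (hF : F ≤ atTop) (y : ℂ) (hy : Tendsto (fun k => g^[k] x) F (𝓝 y)) : y ∉ U := by
  intro hyU
  obtain ⟨δ, hδ, hδU⟩ := Metric.nhds_basis_closedBall.mem_iff.1 (hUo.mem_nhds hyU)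
  have h1 := hx (closedBall y δ) hδU (isCompact_closedBall y δ)
  have h2 : ∀ᶠ k in F, g^[k] x ∉ closedBall y δ := hF h1
  have h3 : ∀ᶠ k in F, g^[k] x ∈ closedBall y δ := hy (closedBall_mem_nhds y hδ)
  obtain ⟨k, hk, hk'⟩ := (h2.and h3).exists
  exact hk hk'

/-- the locally uniform limits are constant. -/
theorem ESC_const (g : ℂ → ℂ) (U : Set ℂ) (hUo : IsOpen U) (hUc : IsPreconnected U)
    (hgd : ∀ k, DifferentiableOn ℂ (g^[k]) U) (hgm : ∀ k, MapsTo (g^[k]) U U)
    (hx : ∀ x ∈ U, ∀ C ⊆ U, IsCompact C → ∀ᶠ k in atTop, g^[k] x ∉ C) (u : Ultrafilter ℕ)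
    (hu : (u : Filter ℕ) ≤ atTop) (ψ : ℂ → ℂ) (hψd : DifferentiableOn ℂ ψ U)
    (hψ : TendstoLocallyUniformlyOn (fun k => g^[k]) ψ u U) :
    ∀ z ∈ U, ∀ z' ∈ U, ψ z' = ψ z := by
  intro z hz z' hz'
  obtain ⟨r, hr, hrU⟩ := Metric.isOpen_iff.1 hUo z hz
  have hnot : ∀ y ∈ U, ψ y ∉ U := fun y hy =>
    ESC_limit g U hUo y (hx y hy) u hu (ψ y) (hψ.tendsto_at hy)
  by_contra hne
  have hex : ∃ x ∈ ball z r, ψ x - ψ z ≠ 0 := by
    by_contra hcon
    push Not at hcon
    apply hne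
    have han : AnalyticOnNhd ℂ ψ U := hψd.analyticOnNhd hUo
    have hac : AnalyticOnNhd ℂ (fun _ : ℂ => ψ z) U := analyticOnNhd_const
    have heq : ψ =ᶠ[𝓝 z] fun _ => ψ z := by
      filter_upwards [ball_mem_nhds z hr] with x hxb
      exact sub_eq_zero.1 (hcon x hxb)
    exact han.eqOn_of_preconnected_of_eventuallyEq hac hUc hz heq hz'
  have hT : TendstoLocallyUniformlyOn (fun (k : ℕ) (x : ℂ) => g^[k] x - ψ z)
      (fun x => ψ x - ψ z) u (ball z r) := by
    have h1 : TendstoLocallyUniformlyOn (fun k => g^[k]) ψ u (ball z r) := hψ.mono hrU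
    rw [Metric.tendstoLocallyUniformlyOn_iff] at h1 ⊢
    intro ε hε x hxb
    obtain ⟨t, ht, h2⟩ := h1 ε hε x hxb
    refine ⟨t, ht, ?_⟩
    filter_upwards [h2] with k hk y hy
    have := hk y hy
    rw [dist_eq_norm] at this ⊢
    rwa [sub_sub_sub_cancel_right]
  have h2 := V3.THU u (fun (k : ℕ) (x : ℂ) => g^[k] x - ψ z) (fun x => ψ x - ψ z) z r hr
    (Eventually.of_forall fun k => ((hgd k).mono hrU).sub_const _) hT (sub_self _) hex r hr
  obtain ⟨k, y, hy, hky⟩ := h2.exists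
  have h3 : ψ z ∈ U := by
    have h4 := hgm k (hrU hy)
    have h5 : g^[k] y = ψ z := sub_eq_zero.1 hky
    rwa [h5] at h4
  exact hnot z hz h3

/-- the fixed points in a compact set are finite in number if all are repelling. -/
theorem ESC_finite (g : ℂ → ℂ) (K : Set ℂ) (hK : IsCompact K) (hg : Differentiable ℂ g)
    (hrep : ∀ z, g z = z → 1 < ‖deriv g z‖) : {z ∈ K | g z = z}.Finite := by
  by_contra hinf
  have hinf' : {z ∈ K | g z = z}.Infinite := hinf
  have hsub : {z ∈ K | g z = z} ⊆ K := fun z hz => hz.1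
  obtain ⟨p, hpK, hp⟩ := hinf'.exists_accPt_of_subset_isCompact hK hsub
  have hclosed : IsClosed {z : ℂ | g z = z} := isClosed_eq hg.continuous continuous_id
  have hp1 : AccPt p (𝓟 {z : ℂ | g z = z}) := hp.mono (principal_mono.2 fun z hz => hz.2)
  have hpf : g p = p := by
    have h1 : p ∈ closure {z : ℂ | g z = z} :=
      mem_closure_iff_clusterPt.2 hp1.clusterPt
    rw [hclosed.closure_eq] at h1
    exact h1
  have h1 : HasDerivAt (fun z => g z - z) (deriv g p - 1) p :=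
    (hg p).hasDerivAt.sub (hasDerivAt_id p)
  have h2 : deriv g p - 1 ≠ 0 := by
    intro h
    have h3 := hrep p hpf
    rw [sub_eq_zero.1 h, norm_one] at h3
    exact lt_irrefl _ h3
  have h3 : ∀ᶠ z in 𝓝[≠] p, g z - z ≠ 0 := h1.eventually_ne h2
  have h4 : ∃ᶠ z in 𝓝[≠] p, z ∈ {z : ℂ | g z = z} := accPt_iff_frequently_nhdsNE.1 hp1
  obtain ⟨z, hz, hz'⟩ := (h4.and_eventually h3).exists
  exact hz' (sub_eq_zero.2 hz)

/-- an orbit converging to a repelling fixed point reaches it. -/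
theorem ESC_repel (g : ℂ → ℂ) (hg : Differentiable ℂ g) (p : ℂ) (hp : g p = p)
    (hrep : 1 < ‖deriv g p‖) (x : ℂ) (hx : Tendsto (fun k => g^[k] x) atTop (𝓝 p)) :
    ∃ k, g^[k] x = p := by
  have h1 : ∀ᶠ y in 𝓝 p, ‖y - p‖ ≤ ‖g y - p‖ := by
    have h2 : HasDerivAt g (deriv g p) p := (hg p).hasDerivAt
    have h3 := h2.isLittleO
    have h4 := h3.def (sub_pos.2 hrep)
    filter_upwards [h4] with y hy
    rw [hp, smul_eq_mul] at hy
    have h5 : ‖(y - p) * deriv g p‖ = ‖y - p‖ * ‖deriv g p‖ := norm_mul _ _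
    have h6 : ‖(y - p) * deriv g p‖ ≤ ‖g y - p‖ + ‖g y - p - (y - p) * deriv g p‖ := by
      have := norm_sub_le (g y - p) (g y - p - (y - p) * deriv g p)
      rwa [sub_sub_cancel] at this
    nlinarith
  obtain ⟨N, hN⟩ := eventually_atTop.1 (hx.eventually h1)
  have h2 : ∀ k, ‖g^[N] x - p‖ ≤ ‖g^[N + k] x - p‖ := by
    intro k
    induction k with
    | zero => simp
    | succ k ih =>
      refine ih.trans ?_
      have h3 := hN (N + k) (Nat.le_add_right _ _)
      rw [← Function.iterate_succ_apply' g] at h3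
      exact h3
  have h3 : Tendsto (fun k => ‖g^[N + k] x - p‖) atTop (𝓝 0) := by
    have h4 : Tendsto (fun k => g^[N + k] x) atTop (𝓝 p) :=
      hx.comp (tendsto_atTop_mono (fun k => Nat.le_add_left k N) tendsto_id)
    have h5 := (h4.sub_const p).norm
    rwa [sub_self, norm_zero] at h5
  have h4 : ‖g^[N] x - p‖ ≤ 0 := ge_of_tendsto' h3 h2
  exact ⟨N, sub_eq_zero.1 (norm_le_zero_iff.1 h4)⟩

theorem ESC (hCMP : CMP_stmt) (hLIM : LIM_stmt) : ESC_stmt := by
  intro n c U m hn hc hAR hU hm hmaps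
  obtain ⟨hUo, hUcon, hUint, hU4, -, -, -, -⟩ := hCMP n c U hn hc hU
  set g : ℂ → ℂ := (fc n c)^[m] with hgdef
  have hgd : Differentiable ℂ g := ESC_diff n m c
  have hgkd : ∀ k, Differentiable ℂ (g^[k]) := fun k => hgd.iterate k
  have hgm : ∀ k, MapsTo (g^[k]) U U := fun k => hmaps.iterate k
  by_contra hcon
  push Not at hcon
  have hx : ∀ x ∈ U, ∀ C ⊆ U, IsCompact C → ∀ᶠ k in atTop, g^[k] x ∉ C := by
    intro x hxU C hC hCc
    exact hcon x hxU C hC hCc
  have hrep : ∀ z, g z = z → 1 < ‖deriv g z‖ := fun z hz => hAR m z hm hz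
  obtain ⟨x, hxU⟩ := hUcon.nonempty
  -- step 2
  have hdiff : Tendsto (fun k => g^[k + 1] x - g^[k] x) atTop (𝓝 0) := by
    rw [tendsto_iff_ultrafilter]
    intro u hu
    obtain ⟨ψ, hψd, hψ⟩ := V3.TMO u (fun k => g^[k]) U hUo (by
      intro y hy
      obtain ⟨r, hr, hrU⟩ := Metric.isOpen_iff.1 hUo y hy
      refine ⟨r, hr, 4, Eventually.of_forall fun k => ⟨(hgkd k).differentiableOn, ?_⟩⟩
      intro w hw
      have := hU4 (hgm k (hrU hw))
      rw [mem_ball_zero_iff] at this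
      exact this.le)
    have hconst := ESC_const g U hUo hUcon.isPreconnected (fun k => (hgkd k).differentiableOn) hgm hx
      u hu ψ hψd hψ
    have h1 : Tendsto (fun k => g^[k] x) u (𝓝 (ψ x)) := hψ.tendsto_at hxU
    have h2 : Tendsto (fun k => g^[k] (g x)) u (𝓝 (ψ (g x))) := hψ.tendsto_at (hmaps hxU)
    rw [hconst x hxU (g x) (hmaps hxU)] at h2
    have h3 := h2.sub h1
    rw [sub_self] at h3
    exact h3
  -- step 3
  have hfin := ESC_finite g (filled n c) (isCompact_filled n c) hgd hrep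
  obtain ⟨p, hpK, hp, hpx⟩ := hLIM g (fun k => g^[k] x) (filled n c) hgd.continuous
    (isCompact_filled n c) (fun k => interior_subset (hUint (hgm k hxU)))
    (fun k => Function.iterate_succ_apply' g k x) hfin hdiff
  have hpU : p ∉ U := ESC_limit g U hUo x (hx x hxU) atTop le_rfl p hpx
  -- step 4
  obtain ⟨k, hk⟩ := ESC_repel g hgd p hp (hrep p hp) x hpx
  apply hpU
  rw [← hk]
  exact hgm k hxU

end BR
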